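import Mathlib
import Pool.Agent.H.MP_366529_co.Geo

set_option autoImplicit false

namespace Pool.Agent.Results.MP_366529_co.Rotor
open Set Pool.Agent.H.MP_366529_co

/-- `p` is a crossing-free straight-line drawing of `G` in the plane -/
def PlaneDrawing {V : Type} (G : SimpleGraph V) (p : V → ℂ) : Prop :=
  Function.Injective p ∧
  (∀ a b x, G.Adj a b → p x ∉ openSegment ℝ (p a) (p b)) ∧
  ∀ a b c d, G.Adj a b → G.Adj c d → s(a, b) ≠ s(c, d) →
    Disjoint (openSegment ℝ (p a) (p b)) (openSegment ℝ (p c) (p d))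

/-- the point set of the drawing -/
def drawn {V : Type} (G : SimpleGraph V) (p : V → ℂ) : Set ℂ :=
  range p ∪ {z | ∃ a b, G.Adj a b ∧ z ∈ segment ℝ (p a) (p b)}

/-- `R` is a rotor of order `n` of `G`, drawn in the closed unit disc, with attachments `v` -/
def IsRotor {V : Type} (G R : SimpleGraph V) (p : V → ℂ) (n : ℕ) (v : ZMod n → V) : Prop :=
  R ≤ G ∧ PlaneDrawing G p ∧ Function.Injective v ∧
  range v = R.support ∩ (G \ R).support ∧
  (∀ a b, R.Adj a b → segment ℝ (p a) (p b) ⊆ Metric.closedBall 0 1) ∧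
  (∀ a b, (G \ R).Adj a b → Disjoint (segment ℝ (p a) (p b)) (Metric.ball 0 1)) ∧
  drawn G p ∩ Metric.sphere 0 1 = range (fun i => p (v i)) ∧
  ∃ θ : R ≃g R, (∀ i, θ (v i) = v (i + 1)) ∧
    ∀ x ∈ R.support, p (θ x) = Complex.exp (2 * Real.pi * Complex.I / (n : ℂ)) * p x

theorem norm_le {a : Fin 31} (h : Q a ≤ 100) : ‖pp a‖ ≤ 1 := by
  have h1 := pp_sq a
  have h2 : (Q a : ℝ) ≤ 100 := by exact_mod_cast h
  nlinarith [norm_nonneg (pp a)]

theorem norm_ge {a : Fin 31} (h : 100 ≤ Q a) : 1 ≤ ‖pp a‖ := by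
  have h1 := pp_sq a
  have h2 : (100 : ℝ) ≤ Q a := by exact_mod_cast h
  nlinarith [norm_nonneg (pp a)]

theorem norm_eq (a : Fin 31) : ‖pp a‖ = 1 ↔ ∃ i, vv i = a := by
  rw [← QV]
  constructor
  · intro h
    have h1 := pp_sq a
    rw [h] at h1
    have : (Q a : ℝ) = 100 := by linarith
    exact_mod_cast this
  · intro h
    exact le_antisymm (norm_le h.le) (norm_ge h.ge)

theorem rotor : IsRotor G0 R0 pp 6 vv := by
  refine ⟨fun a b h => le0 a b h, ⟨pp_inj, draw1, draw2⟩, vv_inj, ?_, ?_, ?_, ?_, ?_⟩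
  · ext x
    exact att x
  · intro a b h
    apply (convex_closedBall _ _).segment_subset
    · simpa using norm_le (QR a b h)
    · simpa using norm_le (QR b a h.symm)
  · intro a b h
    obtain ⟨h1, h2⟩ := h
    rw [Set.disjoint_left, ← insert_endpoints_openSegment]
    rintro z (rfl | rfl | hz) hb
    · exact absurd (mem_ball_zero_iff.1 hb) (not_lt.2 (norm_ge (QS a b h1 h2)))
    · exact absurd (mem_ball_zero_iff.1 hb)
        (not_lt.2 (norm_ge (QS b a h1.symm (fun c => h2 c.symm))))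
    · exact absurd (mem_ball_zero_iff.1 hb) (not_lt.2 (outside h1 h2 hz).le)
  · ext z
    constructor
    · rintro ⟨h1, h2⟩
      have h3 : ‖z‖ = 1 := mem_sphere_zero_iff_norm.1 h2
      have key : ∀ a, z = pp a → z ∈ range (fun i => pp (vv i)) := by
        rintro a rfl
        obtain ⟨i, rfl⟩ := (norm_eq a).1 h3
        exact ⟨i, rfl⟩
      rcases h1 with ⟨a, rfl⟩ | ⟨a, b, hab, hz⟩
      · exact key a rfl
      · rw [← insert_endpoints_openSegment] at hz
        rcases hz with rfl | rfl | hz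
        · exact key a rfl
        · exact key b rfl
        · exfalso
          by_cases hR : R0.Adj a b
          · have := openSegment_subset_ball_of_ne (z := (0 : ℂ)) (r := 1)
              (by simpa using norm_le (QR a b hR)) (by simpa using norm_le (QR b a hR.symm))
              (fun c => hab.ne (pp_inj c)) hz
            rw [mem_ball_zero_iff, h3] at this
            exact lt_irrefl _ this
          · have := outside hab hR hz
            rw [h3] at this
            exact lt_irrefl _ this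
    · rintro ⟨i, rfl⟩
      exact ⟨Or.inl ⟨_, rfl⟩, mem_sphere_zero_iff_norm.2 ((norm_eq _).2 ⟨i, rfl⟩)⟩
  · refine ⟨⟨th, fun {a b} => th_adj a b⟩, th_v, ?_⟩
    rintro x ⟨y, hy⟩
    obtain ⟨h1, h2⟩ := rot_int x y hy
    show pp (th x) = _
    unfold pp
    rw [h1, h2, ← rot_L]
    push_cast
    rfl

theorem result : ∃ (N n : ℕ) (G R : SimpleGraph (Fin N)) (p : Fin N → ℂ) (v : ZMod n → Fin N)
    (τ : Equiv.Perm (Fin N)) (k : ℕ),
    0 < n ∧ IsRotor G R p n v ∧ (∀ i, τ (v i) = v (-i)) ∧ (∀ x, x ∉ range v → τ x = x) ∧ 0 < k ∧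
    Nat.card (((G \ R) ⊔ R.map τ.toEmbedding).Coloring (Fin k)) ≠ Nat.card (G.Coloring (Fin k)) := by
  refine ⟨31, 6, G0, R0, pp, vv, ta, 3, by norm_num, rotor, ta_v,
    fun x hx => ta_o x (fun i e => hx ⟨i, e⟩), by norm_num, ?_⟩
  have h0 := nocol
  rw [Nat.card_of_isEmpty (α := G0.Coloring (Fin 3))]
  have hC : Nonempty (((G0 \ R0) ⊔ R0.map ta.toEmbedding).Coloring (Fin 3)) := by
    refine ⟨SimpleGraph.Coloring.mk cl ?_⟩
    intro a b h
    apply col_ok
    rcases h with h | h
    · exact Or.inl h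
    · right
      obtain ⟨x, y, hxy, rfl, rfl⟩ := (SimpleGraph.map_adj _ _ _ _).1 h
      have e : ∀ x, ta (ta x) = x := fun x => ta.left_inv x
      simpa [e] using hxy
  have hF : Finite (((G0 \ R0) ⊔ R0.map ta.toEmbedding).Coloring (Fin 3)) :=
    Finite.of_injective (fun C => (C : Fin 31 → Fin 3)) DFunLike.coe_injective
  exact Nat.card_pos.ne'

end Pool.Agent.Results.MP_366529_co.Rotor
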